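import Pool.Agent.Helper70.MM.Goals

/-!
# MP_91ee6f_gt: packet MM-EXMAX
-/

open MeasureTheory Set Metric
open scoped ENNReal RealInnerProductSpace Topology
open Pool.Agent.Results.MP_91ee6f_gt

namespace Pool.Agent.Helper42.MM

open Pool.Agent.Helper67.MaxMeas Pool.Agent.Helper70.MM

section general

variable {Y : Type*} [MetricSpace Y] [CompactSpace Y] [MeasurableSpace Y] [BorelSpace Y]

lemma bilX_eq_prod (μ ν : Measure Y) [IsFiniteMeasure μ] [IsFiniteMeasure ν] :
    bilX μ ν = ∫ p, Real.exp (-dist p.1 p.2) ∂(μ.prod ν) := by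
  have hc : Continuous fun p : Y × Y => Real.exp (-dist p.1 p.2) := by fun_prop
  rw [integral_prod _ (hc.integrable_of_hasCompactSupport (HasCompactSupport.of_compactSpace _))]
  rfl

lemma exists_min [Nonempty Y] : ∃ μ : ProbabilityMeasure Y, ∀ ν : ProbabilityMeasure Y,
    bilX (μ : Measure Y) (μ : Measure Y) ≤ bilX (ν : Measure Y) (ν : Measure Y) := by
  have hc : Continuous fun p : Y × Y => Real.exp (-dist p.1 p.2) := by fun_prop
  let f : BoundedContinuousFunction (Y × Y) ℝ := BoundedContinuousFunction.mkOfCompact ⟨_, hc⟩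
  have h1 : Continuous fun μ : ProbabilityMeasure (Y × Y) => ∫ x, f x ∂(μ : Measure (Y × Y)) :=
    ProbabilityMeasure.continuous_integral_boundedContinuousFunction f
  have h2 : Continuous fun μ : ProbabilityMeasure Y × ProbabilityMeasure Y => μ.1.prod μ.2 :=
    ProbabilityMeasure.continuous_prod
  have h3 : Continuous fun μ : ProbabilityMeasure Y =>
      bilX (μ : Measure Y) (μ : Measure Y) := by
    have h4 : (fun μ : ProbabilityMeasure Y => bilX (μ : Measure Y) (μ : Measure Y)) =
        fun μ : ProbabilityMeasure Y =>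
          ∫ x, f x ∂((μ.prod μ : ProbabilityMeasure (Y × Y)) : Measure (Y × Y)) := by
      funext μ
      rw [bilX_eq_prod]
      rfl
    rw [h4]
    exact h1.comp (h2.comp (continuous_id.prodMk continuous_id))
  have hne : Nonempty (ProbabilityMeasure Y) := by
    obtain ⟨y⟩ := ‹Nonempty Y›
    exact ⟨⟨Measure.dirac y, inferInstance⟩⟩
  obtain ⟨μ, -, hμ⟩ := isCompact_univ.exists_isMinOn (s := (univ : Set (ProbabilityMeasure Y)))
    univ_nonempty h3.continuousOn
  exact ⟨μ, fun ν => hμ (mem_univ ν)⟩

lemma kkt_ge (μ : Measure Y) [IsProbabilityMeasure μ]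
    (hμ : ∀ ν : Measure Y, IsProbabilityMeasure ν → bilX μ μ ≤ bilX ν ν) (x : Y) :
    bilX μ μ ≤ potential μ x := by
  by_contra hlt
  push Not at hlt
  set c := bilX μ μ with hc
  set K := potential μ x with hK
  have hK0 : 0 ≤ K := potential_nonneg μ x
  have hc1 : c ≤ 1 := by
    have : c ≤ ∫ _, (1 : ℝ) ∂μ :=
      integral_mono (integrable_of_continuous μ (continuous_potential μ)) (integrable_const _)
        (fun y => potential_le μ y)
    simpa using this
  set t : ℝ := (c - K) / 2 with ht
  have ht0 : 0 < t := by rw [ht]; linarith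
  have ht1 : t ≤ 1 := by rw [ht]; linarith
  -- the competitor
  set ν : Measure Y := ENNReal.ofReal (1 - t) • μ + ENNReal.ofReal t • Measure.dirac x with hν
  have hprob : IsProbabilityMeasure ν := by
    constructor
    rw [hν, Measure.add_apply, Measure.smul_apply, Measure.smul_apply, measure_univ, measure_univ,
      smul_eq_mul, smul_eq_mul, mul_one, mul_one, ← ENNReal.ofReal_add (by linarith) ht0.le]
    simp
  have hf1 : IsFiniteMeasure (ENNReal.ofReal (1 - t) • μ) :=
    Measure.smul_finite μ ENNReal.ofReal_ne_top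
  have hf2 : IsFiniteMeasure (ENNReal.ofReal t • Measure.dirac x) :=
    Measure.smul_finite (Measure.dirac x) ENNReal.ofReal_ne_top
  have hdν : bilX (Measure.dirac x) μ = K := by
    unfold bilX
    rw [integral_dirac' _ _ (continuous_potential μ).stronglyMeasurable]
  have hdν' : bilX μ (Measure.dirac x) = K := by rw [bilX_comm, hdν]
  have hdd : bilX (Measure.dirac x) (Measure.dirac x) = 1 := by
    unfold bilX
    rw [integral_dirac' _ _ (continuous_potential _).stronglyMeasurable]
    unfold potential
    rw [integral_dirac' _ _ (by fun_prop : Continuous fun y => Real.exp (-dist x y)).stronglyMeasurable]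
    simp
  have e1 : bilX ν ν = (1 - t) * ((1 - t) * c + t * K) + t * ((1 - t) * K + t * 1) := by
    have e2 : ∀ ρ : Measure Y, IsFiniteMeasure ρ → bilX ρ ν =
        (1 - t) * bilX ρ μ + t * bilX ρ (Measure.dirac x) := by
      intro ρ _
      rw [bilX_comm, hν, bilX_add_left, bilX_smul_left, bilX_smul_left,
        ENNReal.toReal_ofReal (by linarith), ENNReal.toReal_ofReal ht0.le, bilX_comm μ ρ,
        bilX_comm (Measure.dirac x) ρ]
    rw [e2 ν inferInstance, bilX_comm ν μ, bilX_comm ν (Measure.dirac x), e2 μ inferInstance,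
      e2 (Measure.dirac x) inferInstance, hdν, hdν', hdd]
  have h := hμ ν hprob
  rw [e1] at h
  have h2 : K = c - 2 * t := by rw [ht]; ring
  rw [h2] at h
  have h3 : 4 * t - 3 - c < 0 := by rw [ht]; linarith
  have h4 : t ^ 2 * (4 * t - 3 - c) < 0 := mul_neg_of_pos_of_neg (by positivity) h3
  have h5 : (1 - t) * ((1 - t) * c + t * (c - 2 * t)) + t * ((1 - t) * (c - 2 * t) + t * 1) =
      c + t ^ 2 * (4 * t - 3 - c) := by ring
  rw [h5] at h
  linarith

lemma kkt_ae (μ : Measure Y) [IsProbabilityMeasure μ]
    (h : ∀ x, bilX μ μ ≤ potential μ x) : ∀ᵐ x ∂μ, potential μ x = bilX μ μ := by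
  have hi : Integrable (fun x => potential μ x - bilX μ μ) μ :=
    (integrable_of_continuous μ (continuous_potential μ)).sub (integrable_const _)
  have h0 : ∫ x, (potential μ x - bilX μ μ) ∂μ = 0 := by
    rw [integral_sub (integrable_of_continuous μ (continuous_potential μ)) (integrable_const _)]
    simp [bilX]
  rw [integral_eq_zero_iff_of_nonneg (fun x => sub_nonneg.2 (h x)) hi] at h0
  filter_upwards [h0] with x hx
  simpa [sub_eq_zero] using hx

end general

lemma continuous_potential_En {n : ℕ} (μ : Measure (En n)) [IsFiniteMeasure μ] :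
    Continuous (potential μ) := by
  refine continuous_of_dominated (bound := fun _ => 1) ?_ ?_ (integrable_const _) ?_
  · intro x
    exact (by fun_prop : Continuous fun y : En n => Real.exp (-dist x y)).aestronglyMeasurable
  · intro x
    refine Filter.Eventually.of_forall fun y => ?_
    rw [Real.norm_eq_abs, abs_of_pos (Real.exp_pos _), Real.exp_le_one_iff]
    linarith [dist_nonneg (x := x) (y := y)]
  · exact Filter.Eventually.of_forall fun y => by fun_prop

theorem exmax (hcrit : CRIT) : EXMAX := by
  intro n X hX hne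
  have hcomp : CompactSpace X := isCompact_iff_compactSpace.1 hX
  have hne' : Nonempty X := hne.to_subtype
  obtain ⟨μ, hμ⟩ := exists_min (Y := X)
  have hμ' : ∀ ν : Measure X, IsProbabilityMeasure ν →
      bilX (μ : Measure X) (μ : Measure X) ≤ bilX ν ν := fun ν hν => hμ ⟨ν, hν⟩
  set m : Measure X := (μ : Measure X) with hm
  have hmp : IsProbabilityMeasure m := by rw [hm]; infer_instance
  have hge := kkt_ge m hμ'
  have hae := kkt_ae m hge
  set c := bilX m m with hc
  have hc0 : 0 < c := by
    obtain ⟨x, hx⟩ := hae.exists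
    rw [← hx]
    exact potential_pos m x
  have hemb : MeasurableEmbedding (Subtype.val : X → En n) :=
    MeasurableEmbedding.subtype_coe hX.isClosed.measurableSet
  have hpot : ∀ x : X, potential m x = potential (inEn m) (x : En n) := by
    intro x
    unfold potential inEn
    rw [hemb.integral_map]
    rfl
  have hwp : IsProbabilityMeasure (inEn m) :=
    Measure.isProbabilityMeasure_map measurable_subtype_coe.aemeasurable
  have hwX : (inEn m) Xᶜ = 0 := by
    unfold inEn
    rw [hemb.map_apply]
    simp
  have hge' : ∀ x ∈ X, c ≤ potential (inEn m) x := by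
    intro x hx
    rw [← hpot ⟨x, hx⟩]
    exact hge ⟨x, hx⟩
  have hae' : ∀ᵐ x ∂(inEn m), potential (inEn m) x = c := by
    unfold inEn
    rw [hemb.ae_map_iff]
    filter_upwards [hae] with x hx
    rw [← hx]
    exact (hpot x).symm
  have hsupp : ∀ x ∈ (inEn m).support, potential (inEn m) x = c := by
    have hcl : IsClosed {x : En n | potential (inEn m) x = c} :=
      isClosed_eq (continuous_potential_En _) continuous_const
    exact Measure.support_subset_of_isClosed hcl hae'
  obtain ⟨ν, h1, h2, h3, h4⟩ := hcrit n X hX (inEn m) hwp hwX c hc0 hge' hsupp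
  refine ⟨ν, c, hc0, h2, h3, h4, ?_, ?_⟩
  · rw [h1]; exact hge'
  · rw [h1]; exact hsupp

end Pool.Agent.Helper42.MM
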